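import Pool.Agent.H60.RF.Stmts

/-!
# One class: the linear programme applied to the entropies of a class
-/

set_option autoImplicit false

open Finset Real

namespace Pool.RF

open Pool.Agent.H49.Ent Pool.Agent.H32.Dense Pool.STK Pool.KA Pool.GP Pool.KRN

/-- (CLM) -/
theorem clm (hCLC : CLCStmt) (hSUB : SUBStmt) (hENT : ENTStmt) : CLMStmt := by
  intro m J N G K C g κ F hm6 hm7 hmK hu hg b hG t hgood A a ha hl E η hE hη hI hD τ n hτ hmin s
    hs
  classical
  obtain ⟨q, hq⟩ : ∃ q, q = cond F.p A a := ⟨_, rfl⟩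
  have hlq : IsLaw q := hq ▸ hl
  have hlog2 : 0 < Real.log 2 := Real.log_pos (by norm_num)
  have hlog3 : 0 < Real.log 3 := Real.log_pos (by norm_num)
  have hlog37 : Real.log 3 ≤ Real.log 7 := Real.log_le_log (by norm_num) (by norm_num)
  have hm0 : (0 : ℝ) ≤ m := Nat.cast_nonneg m
  obtain ⟨Λ, hΛ⟩ : ∃ Λ : ℝ, Λ = -Real.log (law F.p A a) := ⟨_, rfl⟩
  have hΛ0 : 0 ≤ Λ := by
    rw [hΛ, neg_nonneg]
    refine Real.log_nonpos ha.le ?_
    exact (law_le_total F.isLaw.nonneg A a).trans F.isLaw.sum_one.le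
  have ht0 : 0 ≤ t := by
    have h1 := hgood ∅ (Fin.castLE (by omega : 3 ≤ K)) (Fin.castLE_injective _)
      (fun l => Finset.notMem_empty _)
    refine le_trans ?_ h1
    unfold Ex
    exact Finset.sum_nonneg fun ω _ => mul_nonneg (F.isLaw.nonneg ω) (le_max_left _ _)
  obtain ⟨v, hv⟩ : ∃ v : ℝ, v = t / law F.p A a := ⟨_, rfl⟩
  have hv0 : 0 ≤ v := by rw [hv]; exact div_nonneg ht0 ha.le
  have h37 : (m : ℝ) * Real.log 3 ≤ m * Real.log 7 := mul_le_mul_of_nonneg_left hlog37 hm0
  have h30 : 0 ≤ (m : ℝ) * Real.log 3 := mul_nonneg hm0 hlog3.le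
  have hCr : 20 * (m * Real.log 7) ≤ Cr m N G C := by
    unfold Cr KC
    have h1 : 0 ≤ Real.log (2 * ((C + 1 : ℕ) : ℝ) + 1) := Real.log_nonneg (by
      have : (0 : ℝ) ≤ ((C + 1 : ℕ) : ℝ) := Nat.cast_nonneg _
      linarith)
    have h2 : 0 ≤ Real.log (cs 3 m G * ((N : ℝ) + 1)) := Real.log_nonneg (by
      have h3 := one_le_cs 3 m G
      have h4 : (1 : ℝ) ≤ (N : ℝ) + 1 := by
        have : (0 : ℝ) ≤ N := Nat.cast_nonneg N
        linarith
      exact one_le_mul_of_one_le_of_one_le h3 h4)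
    have h5 := mul_nonneg hm0 h1
    linarith
  obtain ⟨R, hR⟩ : ∃ R : ℝ, R = η + Λ + v + 3 * E + Cr m N G C := ⟨_, rfl⟩
  obtain ⟨W, hW⟩ : ∃ W : ℝ, W = 2 * R := ⟨_, rfl⟩
  have hR0 : 0 ≤ R := by linarith
  obtain ⟨L, hL⟩ : ∃ L : ℝ, L = J * Real.log 2 := ⟨_, rfl⟩
  have hL0 : 0 ≤ L := by rw [hL]; positivity
  have hx : ∀ i : Fin 3, 0 ≤ (g (n i) : ℝ) * Real.log 2 ∧ (g (n i) : ℝ) * Real.log 2 ≤ L := by
    intro i
    have hgJ : ((g (n i) : ℕ) : ℝ) ≤ J := by exact_mod_cast hg.le (n i)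
    refine ⟨by positivity, ?_⟩
    rw [hL]
    exact mul_le_mul_of_nonneg_right hgJ hlog2.le
  rw [← hq, ← hL] at hD
  -- the coarse directions
  have hDg : ∀ i : Fin 3, m * ((g (n i) : ℝ) * Real.log 2) - η - m * Real.log 3 ≤
      H q (F.D (g (n i))) := by
    intro i
    have h1 := H_trc F hlq (hg.le (n i))
    have h2 : m * (((J : ℝ) - g (n i)) * Real.log 2 + Real.log 3) =
        m * L - m * ((g (n i) : ℝ) * Real.log 2) + m * Real.log 3 := by
      rw [hL]
      ring
    rw [h2] at h1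
    linarith
  have hcard : ∀ α : Finset (Fin m), (α.image τ).card = α.card := fun α =>
    Finset.card_image_of_injective α hτ
  have h := hs L (CH q (F.X J) F.T) W (fun i => (g (n i) : ℝ) * Real.log 2)
    (fun i α => CH q (ls F (mq b) (α.image τ)) (F.D (g (n i))))
    (fun α => H q (ls F (mq b) (α.image τ)))
    (fun α => CH q (F.D J) (ls F (mq b) (α.image τ))) hL0 (by linarith) hx
    (by
      intro i α β
      have h1 := (hSUB F (mq b) q hlq (F.D (g (n i)))).1 (α.image τ) (β.image τ)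
      rw [← Finset.image_union, ← Finset.image_inter _ _ hτ] at h1
      exact h1)
    (by
      intro i
      have h1 := (hSUB F (mq b) q hlq (F.D (g (n i)))).2.1
      change CH q (ls F (mq b) (Finset.image τ ∅)) (F.D (g (n i))) = 0
      rw [Finset.image_empty]
      exact h1)
    (by
      intro i α
      have h1 := (hSUB F (mq b) q hlq (F.D (g (n i)))).2.2 (α.image τ)
      have h2 := CH_nonneg hlq.nonneg (F.D (g (n i))) (ls F (mq b) (α.image τ))
      have h3 := (hENT F (mq b) q hlq hu hG.le).2 (g (n i))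
      change H q (ls F (mq b) (α.image τ)) - (m : ℝ) * ((g (n i) : ℝ) * Real.log 2) - W ≤
        CH q (ls F (mq b) (α.image τ)) (F.D (g (n i)))
      have h4 : (m : ℝ) * ((g (n i) : ℝ) * Real.log 2 + Real.log 3) =
        (m : ℝ) * ((g (n i) : ℝ) * Real.log 2) + m * Real.log 3 := by ring
      rw [h4] at h3
      linarith)
    (by
      intro α
      have h1 := (hENT F (mq b) q hlq hu hG.le).1 (α.image τ)
      rw [hcard, ← hL] at h1
      change H q (ls F (mq b) (α.image τ)) ≤ 2 * (α.card : ℝ) * L + W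
      have h2 : (α.card : ℝ) ≤ m := by
        have h3 := Finset.card_le_univ α
        rw [Fintype.card_fin] at h3
        exact_mod_cast h3
      have h4 : (α.card : ℝ) * Real.log 3 ≤ m * Real.log 3 :=
        mul_le_mul_of_nonneg_right h2 hlog3.le
      have h5 : 2 * (α.card : ℝ) * (L + Real.log 3) = 2 * (α.card : ℝ) * L +
        2 * ((α.card : ℝ) * Real.log 3) := by ring
      rw [h5] at h1
      linarith)
    (by
      intro α
      have h1 := CH_nonneg hlq.nonneg (F.D J) (ls F (mq b) (α.image τ))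
      refine ⟨h1, ?_⟩
      have h2 := H_mono hlq.nonneg (X := fun ω => (F.D J ω, ls F (mq b) (α.image τ) ω))
        (Y := F.D J) (fun ω ω' _ _ h => (Prod.ext_iff.mp h).1)
      unfold CH
      linarith)
    (by
      intro i α β hα hβ hαβ
      have hB : Function.Injective (fun l : Fin 3 => τ (β.orderEmbOfFin hβ l)) :=
        hτ.comp (β.orderEmbOfFin hβ).injective
      have hBs : ∀ l : Fin 3, τ (β.orderEmbOfFin hβ l) ∉ α.image τ := by
        intro l hl'
        obtain ⟨w, hw, hw'⟩ := Finset.mem_image.mp hl'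
        have h1 : w = β.orderEmbOfFin hβ l := hτ hw'
        exact Finset.disjoint_left.mp hαβ (h1 ▸ hw) (Finset.orderEmbOfFin_mem β hβ l)
      have hU : (univ.image (fun l : Fin 3 => τ (β.orderEmbOfFin hβ l))) = β.image τ := by
        have h1 : univ.image (fun l : Fin 3 => τ (β.orderEmbOfFin hβ l)) =
            (univ.image (β.orderEmbOfFin hβ)).image τ := by
          rw [Finset.image_image]
          rfl
        rw [h1, Finset.image_orderEmbOfFin_univ]
      have hi1 : (α.image τ).card = (i : ℕ) + 1 := by rw [hcard, hα]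
      have hi2 := i.isLt
      have h1 := hCLC F hm6 hm7 hmK hg b hG t hgood A a ha hl E η hE hI (by rw [← hq, ← hL]; exact hD)
        (α.image τ) (fun l : Fin 3 => τ (β.orderEmbOfFin hβ l)) (by omega) (by omega) hB hBs
        (n i) (hmin i α hα)
      rw [hU, ← Finset.image_union, hi1, ← hq, ← hL, ← hv] at h1
      have h2 := (hSUB F (mq b) q hlq (F.D (g (n i)))).2.2 (α.image τ)
      have h3 := hDg i
      change (((i : ℕ) : ℝ) + 4) * L + (CH q (ls F (mq b) (α.image τ)) (F.D (g (n i))) -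
        H q (ls F (mq b) (α.image τ)) + m * ((g (n i) : ℝ) * Real.log 2)) -
        3 * ((g (n i) : ℝ) * Real.log 2) +
        CH q (F.D J) (ls F (mq b) ((α ∪ β).image τ)) ≤ CH q (F.X J) F.T + W
      have h4 : 3 * (((J : ℝ) - g (n i)) * Real.log 2) = 3 * L -
          3 * ((g (n i) : ℝ) * Real.log 2) := by rw [hL]; ring
      have h5 : ((((i : ℕ) + 1 : ℕ) : ℝ)) * L = (((i : ℕ) : ℝ) + 4) * L - 3 * L := by
        push_cast
        ring
      rw [h4, h5] at h1
      linarith)
  rw [← hq, ← hv]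
  rw [hL] at h
  linarith

end Pool.RF
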